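import Pool.Agent.Work.MP_1fb4c7_an.Concrete

/-!
# A negative answer to the trace problem for uniform tracial completions

Let `γ_k = diag(1,-1,...,-1)` be of size `k + 1` and let `X_k` be the sphere
`{x ∈ ℝ^(2k²+1) : Σ|x_i| = 1}`. Let `B_k` be the algebra of the continuous functions
`b : X_k → M_(k+1)(ℂ)` with `b(-x) = γ_k b(x) γ_k`, and let `A` be the algebra of the sequences
`(b_k)` with `b_k ∈ B_k` and `‖b_k - λ‖ → 0` for some scalar `λ`. The
uniform tracial completion `M` of `A` consists of the bounded sequences `(b_k)` which converge to a
scalar in the uniform 2-norm. By the Borsuk-Ulam theorem, finitely many elements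
`b^1, ..., b^r` of `M` and `k ≥ r` given, there is a point `x` of `X_k` at which the first
basis vector `e_0` is an eigenvector of each `b^i_k(x)`. Hence limits of the states
`b ↦ ⟨b_k(x) e_0, e_0⟩` give a character of `M`, which is a trace on `M`. Its value at
the tails of the sequence of the constant projections onto `ℂ e_0` is `1`, while these
tails tend to `0` in the uniform 2-seminorm.
-/

namespace Pool.Agent.Results.MP_1fb4c7_an.TraceProblem

open Pool.Agent.Work.MP_1fb4c7_an

/-- There is a (unital) C*-algebra `A` whose trace space `T(A)` is non-empty and weak-* compact,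
and a trace on its uniform tracial completion `M` which is not continuous for
the uniform 2-seminorm `‖·‖_{2,T(A)}`. -/
theorem result : ∃ (A : Type) (_ : CStarAlgebra A) (M : Type) (_ : CStarAlgebra M)
    (q : (ℕ → A) → M), (traces A).Nonempty ∧ IsCompact (traces A) ∧
      IsUniformTracialCompletion q ∧ ∃ τ : M →L[ℂ] ℂ, IsTrace τ ∧ ¬ IsTwoContinuous q τ :=
  main

end Pool.Agent.Results.MP_1fb4c7_an.TraceProblem
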